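import Mathlib
import Pool.Agent.V5helper16.CT.A9
import Pool.Agent.V5helper50.RC.Fin
import Pool.Agent.V5helper68.RS.LAW
import Pool.Agent.V5helper31.RS.BC
import Pool.Agent.V5helper4.RS.INT
import Pool.Agent.V5helper76.RS.RES
import Pool.Agent.V5helper47.RS.MOD
import Pool.Agent.V5helper11.RC.CHL2
import Pool.Agent.V5helper11.RC.CHU2
import Pool.Agent.V5helper3.RC.UP2
import Pool.Agent.V5helper41.RC.LOWM2
import Pool.Agent.V5helper43.RC.BND2
import Pool.Agent.V5helper46.RC.LOCB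
import Pool.Agent.V5helper46.RC.LOCU
import Pool.Agent.V5helper50.RC.ASMA
import Pool.Agent.V5helper50.RC.MB2
import Pool.Agent.V5helper50.RC.NR2
import Pool.Agent.V5helper50.RC.REC2
import Pool.Agent.V5helper69.RC.LOW2
import Pool.Agent.V5helper7.RC.MC2
import Pool.Agent.V5helper71.RC.ASMB
import Pool.Agent.V5helper76.RC.MA2
import Pool.Agent.V5helper82.RC.EXC
import Pool.Agent.V5helper82.RC.LIFT
import Pool.Agent.V5helper82.RC.LOCL
import Pool.Agent.V5helper96.RC.LOWD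

/-!
# MP_927be3_nt: random perturbations of the `k`-spheres which keep all congruences have `d_0(k) = D(k)`

Let `k ≥ 3`, let `θ_0, θ_1, …` be independent random variables, `θ_x` uniform on `{0, 1, …, 4 k x ^ (k-1) - 1}`
(`θ_0 = 0`), and let `q_0 ∣ q_1 ∣ q_2 ∣ …` be a slowly growing chain of moduli such that every `m ≥ 1` divides `q_x`
for all large `x`. The `k`-th powers `x ^ k` are replaced by `x ^ k + q_x θ_x`; so every congruence is kept (modulo each
`m`, for all large `x`). The perturbed `k`-sphere `sphere k q θ d u` is the set of the points `m ∈ ℤ ^ d` with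
`∑ (|m_i| ^ k + q_{|m_i|} θ_{|m_i|}) = u`.

THEOREM. There is `q₀ ≥ 1`, depending only on `k`, such that for all these chains with `q₀ ∣ q_0` almost surely for
all dimensions `d ≥ 1` at once: there are `0 < c ≤ C` such that all non-empty perturbed spheres with large `u` have
between `c u ^ (d/k - 1)` and `C u ^ (d/k - 1)` points if and only if `d ≥ D(k)`. Here `D(k)` is the threshold of the
result `CongruenceThreshold`. So for the perturbed spheres the answer to the question is `d_0(k) = D(k)`.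
-/

set_option autoImplicit false

open Finset MeasureTheory ProbabilityTheory

namespace Pool.Agent.Results.MP_927be3_nt.AllCongruences

/-- the number of the possible values of the shift `θ_x`: it is `4 k x ^ (k-1)` for `x ≥ 1` and `1` for
`x = 0` (`k ≥ 2`) -/
def shifts (k x : ℕ) : ℕ := max 1 (4 * k * x ^ (k - 1))

/-- `θ_0, θ_1, …` are independent random variables on the probability space `(Ω, μ)` and `θ_x` is uniform on
`{0, 1, …, shifts k x - 1}` -/
structure IsRandomShift (k : ℕ) {Ω : Type} [MeasurableSpace Ω] (μ : Measure Ω) (θ : ℕ → Ω → ℕ) :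
    Prop where
  prob : IsProbabilityMeasure μ
  measurable : ∀ x, Measurable (θ x)
  indep : iIndepFun θ μ
  bound : ∀ x ω, θ x ω < shifts k x
  uniform : ∀ x, ∀ v < shifts k x, μ.real {ω | θ x ω = v} = 1 / shifts k x

/-- a slowly growing chain of moduli which contains all moduli: every step is trivial or the multiplication by a
prime, `q x ≤ K + log_2 (x + 1)`, after a nontrivial step from `x` to `x + 1` there is none up to `x ^ 4`, and every
`m ≥ 1` divides some `q x` (and so all the later ones) -/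
structure IsChain (K : ℕ) (q : ℕ → ℕ) : Prop where
  pos : ∀ x, 1 ≤ q x
  step : ∀ x, q (x + 1) = q x ∨ ∃ p, p.Prime ∧ q (x + 1) = p * q x
  slow : ∀ x, q x ≤ K + Nat.log 2 (x + 1)
  sparse : ∀ x y, q (x + 1) ≠ q x → x < y → y ≤ x ^ 4 → q y = q (x + 1)
  all : ∀ m, 1 ≤ m → ∃ x, m ∣ q x

/-- the perturbed `k`-sphere: the points `m ∈ ℤ ^ d` with `∑ (|m_i| ^ k + q_{|m_i|} t_{|m_i|}) = u` -/
def sphere (k : ℕ) (q t : ℕ → ℕ) (d u : ℕ) : Set (Fin d → ℤ) :=
  {m | ∑ i, ((m i).natAbs ^ k + q (m i).natAbs * t (m i).natAbs) = u}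

/-- the order of magnitude in dimension `d`: there are `0 < c ≤ C` such that the non-empty perturbed spheres
with large `u` have between `c u ^ (d/k - 1)` and `C u ^ (d/k - 1)` points -/
def OrderHolds (k : ℕ) (q t : ℕ → ℕ) (d : ℕ) : Prop :=
  ∃ c C : ℝ, 0 < c ∧ c ≤ C ∧ ∃ u₀ : ℕ, ∀ u ≥ u₀, (sphere k q t d u).Nonempty →
    c * (u : ℝ) ^ ((d : ℝ) / k - 1) ≤ (sphere k q t d u).ncard ∧
    ((sphere k q t d u).ncard : ℝ) ≤ C * (u : ℝ) ^ ((d : ℝ) / k - 1)

/-- `D k`: the maximum of `k + 2` and of `p ^ (v_p(k) + 1)` over the primes `p` with `p - 1 ∣ k`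
(`p ≤ k + 1`), with `2 ^ (v_2(k) + 2)` instead for `p = 2` and even `k`. -/
def D (k : ℕ) : ℕ :=
  max (k + 2) (((range (k + 2)).filter (fun p => p.Prime ∧ (p - 1) ∣ k)).sup
    (fun p => if p = 2 ∧ 2 ∣ k then 2 ^ (padicValNat 2 k + 2) else p ^ (padicValNat p k + 1)))

open Pool.Agent.V5helper50.RS (Model)
open Pool.Agent.V5helper50.RC
open Pool.Agent.V5helper16.CT (LocalBound)

lemma localBound_iff {k d : ℕ} (hk : 3 ≤ k) : LocalBound k d ↔ D k ≤ d := by
  unfold D LocalBound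
  rw [max_le_iff, Finset.sup_le_iff]
  constructor
  · rintro ⟨h1, h2, h3⟩
    refine ⟨h1, fun p hp => ?_⟩
    rw [mem_filter] at hp
    obtain ⟨_, hp, hpk⟩ := hp
    split_ifs with h
    · exact h2 h.2
    · by_cases hp2 : p = 2
      · subst hp2
        have h4 : ¬ 2 ∣ k := fun h5 => h ⟨rfl, h5⟩
        rw [padicValNat.eq_zero_of_not_dvd h4]
        omega
      · exact h3 p hp hp2 hpk
  · rintro ⟨h1, h2⟩
    refine ⟨h1, fun h => ?_, fun p hp hp2 hpk => ?_⟩
    · have := h2 2 (by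
        rw [mem_filter, mem_range]
        exact ⟨by omega, Nat.prime_two, by simp⟩)
      rwa [if_pos ⟨rfl, h⟩] at this
    · have := h2 p (by
        rw [mem_filter, mem_range]
        have := Nat.le_of_dvd (by omega) hpk
        exact ⟨by omega, hp, hpk⟩)
      rwa [if_neg (fun h => hp2 h.1)] at this

lemma toModel {k : ℕ} {Ω : Type} [MeasurableSpace Ω] {μ : Measure Ω} {θ : ℕ → Ω → ℕ}
    (h : IsRandomShift k μ θ) : Model k μ θ :=
  ⟨h.prob, h.measurable, h.indep, h.bound, h.uniform⟩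

lemma ofModel {k : ℕ} {Ω : Type} [MeasurableSpace Ω] {μ : Measure Ω} {θ : ℕ → Ω → ℕ}
    (h : Model k μ θ) : IsRandomShift k μ θ :=
  ⟨h.prob, h.meas, h.indep, h.bound, h.unif⟩

lemma sphere_finite {k : ℕ} (hk : 1 ≤ k) (q t : ℕ → ℕ) (d u : ℕ) : (sphere k q t d u).Finite := by
  apply Set.Finite.subset (Set.Finite.pi' (fun _ : Fin d => Set.finite_Icc (-(u : ℤ)) u))
  intro z hz i
  have hz' : ∑ i, ((z i).natAbs ^ k + q (z i).natAbs * t (z i).natAbs) = u := hz
  have h1 : (z i).natAbs ^ k + q (z i).natAbs * t (z i).natAbs ≤ u := by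
    rw [← hz']
    exact single_le_sum (f := fun i => (z i).natAbs ^ k + q (z i).natAbs * t (z i).natAbs)
      (fun _ _ => Nat.zero_le _) (mem_univ i)
  have h2 : (z i).natAbs ≤ u :=
    (Nat.le_self_pow (by omega) _).trans ((Nat.le_add_right _ _).trans h1)
  rw [Set.mem_Icc]
  omega

lemma orderHolds_iff {k : ℕ} (hk : 1 ≤ k) (q t : ℕ → ℕ) (d : ℕ) :
    OrderHolds k q t d ↔ Order k q t d := by
  have hne : ∀ u, (sphere k q t d u).Nonempty ↔ N k q t d u ≠ 0 := by
    intro u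
    rw [← Nat.pos_iff_ne_zero]
    exact (Set.ncard_pos (sphere_finite hk q t d u)).symm
  constructor
  · rintro ⟨c, C, hc, _, u₀, h⟩
    exact ⟨c, C, hc, u₀, fun u hu hN => h u hu ((hne u).mpr hN)⟩
  · rintro ⟨c, C, hc, u₀, h⟩
    refine ⟨c, max c C, hc, le_max_left _ _, u₀, fun u hu hN => ?_⟩
    obtain ⟨h1, h2⟩ := h u hu ((hne u).mp hN)
    refine ⟨h1, h2.trans ?_⟩
    exact mul_le_mul_of_nonneg_right (le_max_right _ _) (by positivity)

/-- **Theorem.** Let `k ≥ 3`. There is `q₀ ≥ 1` such that chains of moduli with `q₀ ∣ q 0` exist, the random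
shifts exist, and for all chains with `q₀ ∣ q 0` and all random shifts almost surely for all `d ≥ 1` the order of
magnitude holds in dimension `d` if and only if `D k ≤ d`. -/
theorem result (k : ℕ) (hk : 3 ≤ k) : ∃ q₀ : ℕ, 1 ≤ q₀ ∧
    (∃ (K : ℕ) (q : ℕ → ℕ), IsChain K q ∧ q₀ ∣ q 0) ∧
    (∃ (Ω : Type) (_ : MeasurableSpace Ω) (μ : Measure Ω) (θ : ℕ → Ω → ℕ), IsRandomShift k μ θ) ∧
    ∀ (K : ℕ) (q : ℕ → ℕ), IsChain K q → q₀ ∣ q 0 →
      ∀ (Ω : Type) [MeasurableSpace Ω] (μ : Measure Ω) (θ : ℕ → Ω → ℕ), IsRandomShift k μ θ →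
        ∀ᵐ ω ∂μ, ∀ d : ℕ, 1 ≤ d → (OrderHolds k q (fun x => θ x ω) d ↔ D k ≤ d) := by
  obtain ⟨q₀, hq₀, h⟩ := fin_of Pool.Agent.V5helper68.RS.t_LAW Pool.Agent.V5helper31.RS.t_BC
    Pool.Agent.V5helper4.RS.t_INT Pool.Agent.V5helper76.RS.t_RES Pool.Agent.V5helper11.RC.t_CHU2 Pool.Agent.V5helper11.RC.t_CHL2 Pool.Agent.V5helper50.RC.REC2.t_REC2 Pool.Agent.V5helper76.RC.t_MA2
    Pool.Agent.V5helper50.RC.MB2.t_MB2 Pool.Agent.V5helper7.RC.t_MC2 Pool.Agent.V5helper43.RC.t_BND2 Pool.Agent.V5helper3.RC.t_UP2 Pool.Agent.V5helper41.RC.t_LOWM2 Pool.Agent.V5helper69.RC.t_LOW2 Pool.Agent.V5helper50.RC.NR2.t_NR2 Pool.Agent.V5helper46.RC.t_LOCU Pool.Agent.V5helper46.RC.t_LOCB Pool.Agent.V5helper82.RC.t_LIFT Pool.Agent.V5helper82.RC.t_LOCL V5helper96.RC.t_LOWD Pool.Agent.V5helper50.RC.ASMA.t_ASMA Pool.Agent.V5helper71.RC.t_ASMB k hk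
  refine ⟨q₀, hq₀, ?_, ?_, fun K q hq hq0 Ω _ μ θ hθ => ?_⟩
  · obtain ⟨K, q, h1, h2, h3⟩ := Pool.Agent.V5helper82.RC.t_EXC q₀ hq₀
    exact ⟨K, q, ⟨h1.pos, h1.step, h1.slow, h1.sparse, h3⟩, h2⟩
  · obtain ⟨Ω, mΩ, μ, θ, hθ⟩ := Pool.Agent.V5helper47.RS.t_MOD k
    exact ⟨Ω, mΩ, μ, θ, ofModel hθ⟩
  · filter_upwards [h K q ⟨hq.pos, hq.step, hq.slow, hq.sparse⟩ hq0 hq.all Ω μ θ (toModel hθ)]
      with ω hω d hd
    rw [orderHolds_iff (by omega), hω d hd, localBound_iff hk]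

end Pool.Agent.Results.MP_927be3_nt.AllCongruences
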