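import Mathlib
import Pool.Agent.V5helper16.CT.A9

set_option autoImplicit false

open Finset

/-!
# MP_927be3_nt: the exact threshold of all congruence obstructions, and of the averaged problem

For `k ≥ 3` let `D k` be the maximum of `k + 2`, of `2 ^ (v_2(k) + 2)` if `k` is even, and of the numbers
`p ^ (v_p(k) + 1)` for the odd primes `p` with `p - 1 ∣ k`.

* The congruence form of the problem, that is, `#{x mod q : x_1 ^ k + ... + x_d ^ k ≡ n} ≍ q ^ (d - 1)`
  uniformly in all `q` and all the residues `n` that are represented modulo `q`, holds if and only if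
  `d ≥ D k`.
* The averaged form of the problem, that is, the mean value of `N_{k,d}(r)` over the radii with
  `r ^ k ≤ X` in an arithmetic progression `r ^ k ≡ n (mod q)` which is represented modulo `q` has the
  order `X ^ ((d - k) / k)`, uniformly in the progression, holds if and only if `d ≥ D k`.
* The problem itself needs `d ≥ D k`, and for `k + 2 ≤ d < D k` the numbers `N_{k,d}(p ^ j)` are bounded for
  some prime `p`, as for `k = 2`, `d = 4`, `p = 2`.

Ingredients: Gauss sums of order `k` modulo the large primes (relative error `O(p ^ (-3/2))` from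
dimension `5` on), a recursion in the exponent for the solutions divisible by `p`, Hensel's lemma, and the
existence of primitive zeros of `x_1 ^ k + ... + x_d ^ k` modulo all powers of `p` (Chevalley-Warning for
`p ∤ k`, the vanishing sum of the roots of unity when `p - 1 ∤ k`, and the `k`-th power
`1 - p ^ (v + 1)`, respectively `1 - 2 ^ (v + 2)`, in the remaining cases).
-/

namespace Pool.Agent.Results.MP_927be3_nt.CongruenceThreshold

/-- The arithmetic `k`-sphere `S_{k,d}(r)` of radius `r` in dimension `d`. -/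
def sphere (k d : ℕ) (r : ℝ) : Set (Fin d → ℤ) := {m | ∑ i, |(m i : ℝ)| ^ k = r ^ k}

/-- `N_{k,d}(r) ≍ r^{d-k}`: there are `0 < c ≤ C` and `r₀` with `c r^{d-k} ≤ N_{k,d}(r) ≤ C r^{d-k}`
for all radii `r ≥ r₀`, `r > 0`, with non-empty `S_{k,d}(r)`. -/
def OrderHolds (k d : ℕ) : Prop :=
  ∃ c C r₀ : ℝ, 0 < c ∧ c ≤ C ∧ ∀ r : ℝ, 0 < r → r₀ ≤ r → (sphere k d r).Nonempty →
    c * r ^ ((d : ℝ) - k) ≤ ((sphere k d r).ncard : ℝ) ∧
      ((sphere k d r).ncard : ℝ) ≤ C * r ^ ((d : ℝ) - k)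

/-- The congruence form of the problem: there are `0 < c ≤ C` such that for all `q ≥ 1` and all residues
`n` modulo `q` which are represented, the number of solutions of `x_1 ^ k + ... + x_d ^ k = n` in `ℤ/q` is
between `c q^{d-1}` and `C q^{d-1}`. -/
def CongruenceOrder (k d : ℕ) : Prop :=
  ∃ c C : ℝ, 0 < c ∧ c ≤ C ∧ ∀ q : ℕ, 1 ≤ q → ∀ n : ZMod q,
    (∃ x : Fin d → ZMod q, ∑ i, x i ^ k = n) →
    c * (q : ℝ) ^ (d - 1) ≤ (Nat.card {x : Fin d → ZMod q // ∑ i, x i ^ k = n} : ℝ) ∧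
      (Nat.card {x : Fin d → ZMod q // ∑ i, x i ^ k = n} : ℝ) ≤ C * (q : ℝ) ^ (d - 1)

/-- The averaged form of the problem: there are `0 < c ≤ C` such that for all `q ≥ 1` and all residues
`n` modulo `q` which are represented modulo `q`, and for all `X ≥ X₀ = X₀(q, n)`, the sum of
`N_{k,d}(x ^ (1/k))` over the integers `0 ≤ x ≤ X` with `x ≡ n (mod q)` is between
`c X ^ ((d-k)/k) (X / q)` and `C X ^ ((d-k)/k) (X / q)`. -/
def AverageOrder (k d : ℕ) : Prop :=
  ∃ c C : ℝ, 0 < c ∧ c ≤ C ∧ ∀ q : ℕ, 1 ≤ q → ∀ n : ZMod q,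
    (∃ x : Fin d → ZMod q, ∑ i, x i ^ k = n) → ∃ X₀ : ℕ, ∀ X : ℕ, X₀ ≤ X →
    c * ((X : ℝ) ^ (((d : ℝ) - k) / k) * (X / q)) ≤
        ((∑ x ∈ (range (X + 1)).filter (fun x : ℕ => (x : ZMod q) = n),
          (sphere k d ((x : ℝ) ^ (1 / (k : ℝ)))).ncard : ℕ) : ℝ) ∧
      ((∑ x ∈ (range (X + 1)).filter (fun x : ℕ => (x : ZMod q) = n),
          (sphere k d ((x : ℝ) ^ (1 / (k : ℝ)))).ncard : ℕ) : ℝ) ≤
        C * ((X : ℝ) ^ (((d : ℝ) - k) / k) * (X / q))

/-- `D k`: the maximum of `k + 2` and of `p ^ (v_p(k) + 1)` over the primes `p` with `p - 1 ∣ k`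
(`p ≤ k + 1`), with `2 ^ (v_2(k) + 2)` instead for `p = 2` and even `k`. -/
def D (k : ℕ) : ℕ :=
  max (k + 2) (((range (k + 2)).filter (fun p => p.Prime ∧ (p - 1) ∣ k)).sup
    (fun p => if p = 2 ∧ 2 ∣ k then 2 ^ (padicValNat 2 k + 2) else p ^ (padicValNat p k + 1)))

open Pool.Agent.V5helper16.CT

lemma localBound_iff {k d : ℕ} (hk : 3 ≤ k) : LocalBound k d ↔ D k ≤ d := by
  unfold D LocalBound
  rw [max_le_iff, Finset.sup_le_iff]
  constructor
  · rintro ⟨h1, h2, h3⟩
    refine ⟨h1, fun p hp => ?_⟩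
    rw [mem_filter] at hp
    obtain ⟨_, hp, hpk⟩ := hp
    split_ifs with h
    · exact h2 h.2
    · by_cases hp2 : p = 2
      · subst hp2
        have h4 : ¬ 2 ∣ k := fun h5 => h ⟨rfl, h5⟩
        rw [padicValNat.eq_zero_of_not_dvd h4]
        omega
      · exact h3 p hp hp2 hpk
  · rintro ⟨h1, h2⟩
    refine ⟨h1, fun h => ?_, fun p hp hp2 hpk => ?_⟩
    · have := h2 2 (by
        rw [mem_filter, mem_range]
        exact ⟨by omega, Nat.prime_two, by simp⟩)
      rwa [if_pos ⟨rfl, h⟩] at this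
    · have := h2 p (by
        rw [mem_filter, mem_range]
        have := Nat.le_of_dvd (by omega) hpk
        exact ⟨by omega, hp, hpk⟩)
      rwa [if_neg (fun h => hp2 h.1)] at this

lemma exists_iff {q k d : ℕ} (hq : 1 ≤ q) (n : ZMod q) :
    (∃ x : Fin d → ZMod q, ∑ i, x i ^ k = n) ↔ N q k d n ≠ 0 := by
  classical
  have : NeZero q := ⟨by omega⟩
  rw [N_eq]
  constructor
  · rintro ⟨x, hx⟩
    exact (card_pos.mpr ⟨x, mem_filter.mpr ⟨mem_univ _, hx⟩⟩).ne'
  · intro h
    obtain ⟨x, hx⟩ := card_pos.mp (Nat.pos_of_ne_zero h)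
    exact ⟨x, (mem_filter.mp hx).2⟩

lemma congruence_iff {k d : ℕ} :
    CongruenceOrder k d ↔ Pool.Agent.V5helper16.CT.CongruenceOrder k d := by
  constructor
  · rintro ⟨c, C, hc, hcC, h⟩
    exact ⟨c, C, hc, hcC, fun q hq n hn => h q hq n ((exists_iff hq n).mpr hn)⟩
  · rintro ⟨c, C, hc, hcC, h⟩
    exact ⟨c, C, hc, hcC, fun q hq n hn => h q hq n ((exists_iff hq n).mp hn)⟩

lemma average_iff' {k d : ℕ} (hk : 3 ≤ k) : AverageOrder k d ↔ AverageOrderT k d := by
  have hk0 : (k : ℝ) ≠ 0 := by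
    have : k ≠ 0 := by omega
    exact_mod_cast this
  have e : ∀ q X : ℕ, 1 ≤ X → (X : ℝ) ^ (((d : ℝ) - k) / k) * (X / q) = (X : ℝ) ^ ((d : ℝ) / k) / q := by
    intro q X hX
    have hX0 : (0 : ℝ) < X := by exact_mod_cast hX
    have h1 : (X : ℝ) ^ ((d : ℝ) / k) = (X : ℝ) ^ (((d : ℝ) - k) / k) * X := by
      conv_rhs => rw [← Real.rpow_one (X : ℝ)]
      rw [Real.rpow_one, ← Real.rpow_add_one hX0.ne']
      congr 1
      field_simp
      ring
    rw [h1]
    ring
  constructor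
  · rintro ⟨c, C, hc, hcC, h⟩
    refine ⟨c, C, hc, hcC, fun q hq n hn => ?_⟩
    obtain ⟨X0, hX0⟩ := h q hq n ((exists_iff hq n).mpr hn)
    refine ⟨max X0 1, fun X hX => ?_⟩
    have h1 := hX0 X (by omega)
    rw [e q X (by omega)] at h1
    rw [T_eq_sum (by omega : 1 ≤ k) n]
    exact h1
  · rintro ⟨c, C, hc, hcC, h⟩
    refine ⟨c, C, hc, hcC, fun q hq n hn => ?_⟩
    obtain ⟨X0, hX0⟩ := h q hq n ((exists_iff hq n).mp hn)
    refine ⟨max X0 1, fun X hX => ?_⟩
    have h1 := hX0 X (by omega)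
    rw [T_eq_sum (by omega : 1 ≤ k) n] at h1
    rw [e q X (by omega)]
    exact h1

/-- bounded numbers of points on the spheres of radius `p ^ j` -/
lemma bounded_of_no_prim {k d p γ : ℕ} (hk : 3 ≤ k) (hd : 1 ≤ d) (hp : p.Prime)
    (hcon : ∀ y : Fin d → ℕ, p ^ γ ∣ ∑ i, y i ^ k → ∀ i, p ∣ y i) :
    ∃ B : ℕ, ∀ j : ℕ, (sphere k d ((p : ℝ) ^ j)).Nonempty ∧ (sphere k d ((p : ℝ) ^ j)).ncard ≤ B := by
  have hcast : ∀ j : ℕ, sphere k d ((p : ℝ) ^ j) = TH854.KS.sphere k d ((p ^ j : ℕ) : ℝ) := by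
    intro j
    push_cast
    rfl
  have hstep : ∀ j : ℕ, γ ≤ j → (TH854.KS.sphere k d ((p ^ (j + 1) : ℕ) : ℝ)).ncard ≤
      (TH854.KS.sphere k d ((p ^ j : ℕ) : ℝ)).ncard := by
    intro j hj
    have hdiv : ∀ m ∈ TH854.KS.sphere k d ((p ^ (j + 1) : ℕ) : ℝ), ∀ i, (p : ℤ) ∣ m i := by
      intro m hm i
      rw [TH854.KS.sphere_natAbs] at hm
      have h1 : p ^ γ ∣ ∑ i, (m i).natAbs ^ k := by
        rw [hm, ← pow_mul]
        apply pow_dvd_pow
        nlinarith
      have h2 := hcon (fun i => (m i).natAbs) h1 i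
      rw [← Int.natCast_dvd_natCast] at h2
      rwa [Int.dvd_natAbs] at h2
    have hfin : (TH854.KS.sphere k d ((p ^ j : ℕ) : ℝ)).Finite := by
      apply TH854.KS.sphere_finite (by omega)
      exact_mod_cast pow_pos hp.pos j
    apply Set.ncard_le_ncard_of_injOn (fun (m : Fin d → ℤ) (i : Fin d) => m i / (p : ℤ)) _ _ hfin
    · intro m hm
      have hd2 := hdiv m hm
      rw [TH854.KS.sphere_natAbs] at hm
      show (fun i => m i / p) ∈ TH854.KS.sphere k d ((p ^ j : ℕ) : ℝ)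
      rw [TH854.KS.sphere_natAbs]
      have h3 : ∀ i, (m i).natAbs = p * (m i / p).natAbs := by
        intro i
        have := Int.mul_ediv_cancel' (hd2 i)
        conv_lhs => rw [← this]
        rw [Int.natAbs_mul, Int.natAbs_natCast]
      have h4 : ∑ i, (m i).natAbs ^ k = p ^ k * ∑ i, (m i / p).natAbs ^ k := by
        rw [mul_sum]
        apply sum_congr rfl
        intro i _
        rw [h3 i, mul_pow]
      rw [h4, pow_succ, mul_pow, mul_comm] at hm
      exact Nat.eq_of_mul_eq_mul_right (pow_pos hp.pos k) hm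
    · intro m hm m' hm' hmm
      funext i
      have h5 := congrFun hmm i
      simp only at h5
      have h6 := Int.mul_ediv_cancel' (hdiv m hm i)
      have h7 := Int.mul_ediv_cancel' (hdiv m' hm' i)
      rw [← h6, ← h7, h5]
  refine ⟨∑ j ∈ range (γ + 1), (TH854.KS.sphere k d ((p ^ j : ℕ) : ℝ)).ncard, fun j => ?_⟩
  rw [hcast j]
  refine ⟨TH854.KS.axis_mem (by omega) hd _, ?_⟩
  have hsmall : ∀ i : ℕ, i ≤ γ → (TH854.KS.sphere k d ((p ^ i : ℕ) : ℝ)).ncard ≤
      ∑ j ∈ range (γ + 1), (TH854.KS.sphere k d ((p ^ j : ℕ) : ℝ)).ncard := by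
    intro i hi
    exact single_le_sum (f := fun j => (TH854.KS.sphere k d ((p ^ j : ℕ) : ℝ)).ncard)
      (fun _ _ => Nat.zero_le _) (mem_range.mpr (by omega))
  rcases Nat.le_total j γ with h | h
  · exact hsmall j h
  · induction j, h using Nat.le_induction with
    | base => exact hsmall γ le_rfl
    | succ j hj ih => exact (hstep j hj).trans ih

/-- **Theorem.** Let `k ≥ 3`. The congruence form and the averaged form of the problem hold in dimension
`d ≥ 1` if and only if `D k ≤ d`. The problem itself can hold in dimension `d` only if `D k ≤ d`, and for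
`k + 2 ≤ d < D k` the number of points on the spheres of radius `p ^ j` stays bounded for some prime `p`.
Finally `D k = k + 2` for odd `k` and `D k = 4 k` for the powers of two `k ≥ 4`. -/
theorem result (k : ℕ) (hk : 3 ≤ k) :
    (∀ d : ℕ, 1 ≤ d → (CongruenceOrder k d ↔ D k ≤ d)) ∧
    (∀ d : ℕ, 1 ≤ d → (AverageOrder k d ↔ D k ≤ d)) ∧
    (∀ d : ℕ, 1 ≤ d → OrderHolds k d → D k ≤ d) ∧
    (∀ d : ℕ, k + 2 ≤ d → d < D k → ∃ p B : ℕ, p.Prime ∧
      ∀ j : ℕ, (sphere k d ((p : ℝ) ^ j)).Nonempty ∧ (sphere k d ((p : ℝ) ^ j)).ncard ≤ B) ∧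
    (Odd k → D k = k + 2) ∧ (∀ a : ℕ, 2 ≤ a → k = 2 ^ a → D k = 4 * k) := by
  have hcong : ∀ d : ℕ, 1 ≤ d → (CongruenceOrder k d ↔ D k ≤ d) := by
    intro d hd
    rw [congruence_iff, ← localBound_iff hk]
    exact ⟨local_of_order hk hd, order_of_local hk⟩
  have hmain : ∀ d : ℕ, 1 ≤ d → OrderHolds k d → D k ≤ d := by
    rintro d hd ⟨c, C, r₀, hc, _, h⟩
    have hH : TH854.KS.Holds k d := ⟨c, C, r₀, hc, h⟩
    have hd2 : k + 2 ≤ d := by
      by_contra hcon
      push Not at hcon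
      exact TH854.KS.fails_low hk hd (by omega) hH
    rw [← localBound_iff hk]
    by_contra hcon
    obtain ⟨p, hp, γ, hγ⟩ := no_prim_of_not hk hd2 hcon
    obtain ⟨y, hy, i, hi⟩ := TH854.KS.primitive_of_holds hk (by omega) hH hp γ
    exact hi (hγ y hy i)
  refine ⟨hcong, fun d hd => ?_, hmain, ?_, ?_, ?_⟩
  · rw [average_iff' hk, average_iff (by omega) hd, ← congruence_iff]
    exact hcong d hd
  · intro d hd hlt
    have hcon : ¬ LocalBound k d := by
      rw [localBound_iff hk]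
      omega
    obtain ⟨p, hp, γ, hγ⟩ := no_prim_of_not hk hd hcon
    obtain ⟨B, hB⟩ := bounded_of_no_prim hk (by omega) hp hγ
    exact ⟨p, B, hp, hB⟩
  · intro hodd
    apply le_antisymm
    · rw [← localBound_iff hk]
      refine ⟨le_rfl, fun h => ?_, fun p hp hp2 hpk => ?_⟩
      · rw [Nat.odd_iff] at hodd
        omega
      · exfalso
        have h1 := hp.eq_one_or_self_of_dvd 2
        have h2 : p % 2 = 1 := Nat.odd_iff.mp (hp.odd_of_ne_two hp2)
        have h3 : 2 ∣ p - 1 := by omega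
        have h4 := h3.trans hpk
        rw [Nat.odd_iff] at hodd
        omega
    · exact le_max_left _ _
  · intro a ha hka
    have h2 : 2 ∣ k := by rw [hka]; exact dvd_pow_self 2 (by omega)
    have hv : padicValNat 2 k = a := by
      rw [hka]; exact padicValNat.prime_pow a
    apply le_antisymm
    · rw [← localBound_iff hk]
      refine ⟨by omega, fun _ => ?_, fun p hp hp2 hpk => ?_⟩
      · rw [hv, pow_add, hka]
        omega
      · have hFact : Fact p.Prime := ⟨hp⟩
        have h3 : ¬ p ∣ k := by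
          intro h4
          rw [hka] at h4
          have h5 := hp.dvd_of_dvd_pow h4
          exact hp2 ((Nat.prime_dvd_prime_iff_eq hp Nat.prime_two).mp h5)
        rw [padicValNat.eq_zero_of_not_dvd h3, zero_add, pow_one]
        have := Nat.le_of_dvd (by omega) hpk
        omega
    · have h3 := ((localBound_iff (d := D k) hk).mpr le_rfl).2.1 h2
      rw [hv, pow_add] at h3
      rw [hka] at h3 ⊢
      omega

end Pool.Agent.Results.MP_927be3_nt.CongruenceThreshold
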