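import Mathlib
import Pool.Agent.V5helper16.CT.A9
import Pool.Agent.V5helper50.RS.Fin
import Pool.Agent.V5helper50.RS.Low1
import Pool.Agent.V5helper68.RS.LAW
import Pool.Agent.V5helper57.RS.BND
import Pool.Agent.V5helper31.RS.BC
import Pool.Agent.V5helper69.RS.THR
import Pool.Agent.V5helper18.RS.ASM
import Pool.Agent.V5helper4.RS.REC
import Pool.Agent.V5helper4.RS.INT
import Pool.Agent.V5helper76.RS.RES
import Pool.Agent.V5helper76.RS.MA
import Pool.Agent.V5helper7.RS.MC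
import Pool.Agent.V5helper51.RS.NR
import Pool.Agent.V5helper11.RS.CHU
import Pool.Agent.V5helper11.RS.CHL
import Pool.Agent.V5helper6.RS.MB
import Pool.Agent.V5helper37.RS.UP
import Pool.Agent.V5helper37.RS.LOW
import Pool.Agent.V5helper6.RS.LOWM
import Pool.Agent.V5helper47.RS.MOD
import Pool.Agent.V5helper47.RS.CNV

/-!
# MP_927be3_nt: the answer to the question for random perturbations of the arithmetic `k`-spheres

Let `k ≥ 3` and let `θ_0, θ_1, …` be independent random variables, `θ_x` uniform on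
`{0, 1, …, 4 k x ^ (k-1) - 1}` (`θ_0 = 0`). For a modulus `Q ≥ 1` replace the `k`-th powers `x ^ k` by
`x ^ k + Q θ_x`; so all the residues modulo `Q` are preserved, and the `k`-th powers are moved by about as
much as the gap between consecutive ones. The perturbed `k`-sphere `sphere k Q d θ u` is the set of the
points `m ∈ ℤ ^ d` with `∑ (|m_i| ^ k + Q θ_{|m_i|}) = u`.

* For `d ≥ k + 1` there are `0 < c ≤ C`, depending only on `k` and `d`, such that almost surely, for all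
  `Q ≥ 1` and ALL large `u`, the number of its points is between `c ρ u ^ (d/k - 1)` and `C ρ u ^ (d/k - 1)`,
  where `ρ = #{x mod Q : x_1 ^ k + … + x_d ^ k = u} / Q ^ (d - 1)` is the density of the solutions modulo `Q`.
* So the order of magnitude `u ^ (d/k - 1) = r ^ (d - k)` holds almost surely with constants that do not depend
  on `Q` if and only if `d ≥ D(k)`, where `D(k)` is the threshold of the result `CongruenceThreshold`: the answer
  of the random model to the question is `d_0(k) = D(k)`.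
-/

set_option autoImplicit false

open Finset MeasureTheory ProbabilityTheory

namespace Pool.Agent.Results.MP_927be3_nt.RandomSpheres

/-- the number of the possible values of the shift `θ_x`: it is `4 k x ^ (k-1)` for `x ≥ 1` and `1` for
`x = 0` (`k ≥ 2`) -/
def shifts (k x : ℕ) : ℕ := max 1 (4 * k * x ^ (k - 1))

/-- `θ_0, θ_1, …` are independent random variables on the probability space `(Ω, μ)` and `θ_x` is uniform on
`{0, 1, …, shifts k x - 1}` -/
structure IsRandomShift (k : ℕ) {Ω : Type} [MeasurableSpace Ω] (μ : Measure Ω) (θ : ℕ → Ω → ℕ) :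
    Prop where
  prob : IsProbabilityMeasure μ
  measurable : ∀ x, Measurable (θ x)
  indep : iIndepFun θ μ
  bound : ∀ x ω, θ x ω < shifts k x
  uniform : ∀ x, ∀ v < shifts k x, μ.real {ω | θ x ω = v} = 1 / shifts k x

/-- the perturbed `k`-sphere: the points `m ∈ ℤ ^ d` with `∑ (|m_i| ^ k + Q t_{|m_i|}) = u` -/
def sphere (k Q d : ℕ) (t : ℕ → ℕ) (u : ℕ) : Set (Fin d → ℤ) :=
  {m | ∑ i, ((m i).natAbs ^ k + Q * t (m i).natAbs) = u}

/-- the density of the solutions of `x_1 ^ k + … + x_d ^ k = u` modulo `Q` -/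
noncomputable def density (k Q d u : ℕ) : ℝ :=
  (Nat.card {x : Fin d → ZMod Q // ∑ i, x i ^ k = (u : ZMod Q)} : ℝ) / (Q : ℝ) ^ (d - 1)

/-- the order of magnitude `u ^ (d/k - 1)` in dimension `d`, uniformly in `Q`: there are `0 < c ≤ C` such that
almost surely for every `Q ≥ 1` the perturbed spheres with `u ≥ u₀` (`u₀` depends on `Q` and on the
shifts), if they are not empty, have between `c u ^ (d/k - 1)` and `C u ^ (d/k - 1)` points -/
def UniformOrder (k d : ℕ) : Prop :=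
  ∃ c C : ℝ, 0 < c ∧ c ≤ C ∧ ∀ (Ω : Type) [MeasurableSpace Ω] (μ : Measure Ω) (θ : ℕ → Ω → ℕ),
    IsRandomShift k μ θ → ∀ᵐ ω ∂μ, ∀ Q : ℕ, 1 ≤ Q → ∃ u₀ : ℕ, ∀ u ≥ u₀,
      (sphere k Q d (fun x => θ x ω) u).Nonempty →
      c * (u : ℝ) ^ ((d : ℝ) / k - 1) ≤ (sphere k Q d (fun x => θ x ω) u).ncard ∧
      ((sphere k Q d (fun x => θ x ω) u).ncard : ℝ) ≤ C * (u : ℝ) ^ ((d : ℝ) / k - 1)

/-- `D k`: the maximum of `k + 2` and of `p ^ (v_p(k) + 1)` over the primes `p` with `p - 1 ∣ k`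
(`p ≤ k + 1`), with `2 ^ (v_2(k) + 2)` instead for `p = 2` and even `k`. -/
def D (k : ℕ) : ℕ :=
  max (k + 2) (((range (k + 2)).filter (fun p => p.Prime ∧ (p - 1) ∣ k)).sup
    (fun p => if p = 2 ∧ 2 ∣ k then 2 ^ (padicValNat 2 k + 2) else p ^ (padicValNat p k + 1)))

open Pool.Agent.V5helper50.RS

section threshold

open Pool.Agent.V5helper16.CT

lemma localBound_iff {k d : ℕ} (hk : 3 ≤ k) : LocalBound k d ↔ D k ≤ d := by
  unfold D LocalBound
  rw [max_le_iff, Finset.sup_le_iff]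
  constructor
  · rintro ⟨h1, h2, h3⟩
    refine ⟨h1, fun p hp => ?_⟩
    rw [mem_filter] at hp
    obtain ⟨_, hp, hpk⟩ := hp
    split_ifs with h
    · exact h2 h.2
    · by_cases hp2 : p = 2
      · subst hp2
        have h4 : ¬ 2 ∣ k := fun h5 => h ⟨rfl, h5⟩
        rw [padicValNat.eq_zero_of_not_dvd h4]
        omega
      · exact h3 p hp hp2 hpk
  · rintro ⟨h1, h2⟩
    refine ⟨h1, fun h => ?_, fun p hp hp2 hpk => ?_⟩
    · have := h2 2 (by
        rw [mem_filter, mem_range]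
        exact ⟨by omega, Nat.prime_two, by simp⟩)
      rwa [if_pos ⟨rfl, h⟩] at this
    · have := h2 p (by
        rw [mem_filter, mem_range]
        have := Nat.le_of_dvd (by omega) hpk
        exact ⟨by omega, hp, hpk⟩)
      rwa [if_neg (fun h => hp2 h.1)] at this

lemma exists_iff {q k d : ℕ} (hq : 1 ≤ q) (n : ZMod q) :
    (∃ x : Fin d → ZMod q, ∑ i, x i ^ k = n) ↔ Pool.Agent.V5helper16.CT.N q k d n ≠ 0 := by
  classical
  have : NeZero q := ⟨by omega⟩
  rw [N_eq]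
  constructor
  · rintro ⟨x, hx⟩
    exact (card_pos.mpr ⟨x, mem_filter.mpr ⟨mem_univ _, hx⟩⟩).ne'
  · intro h
    obtain ⟨x, hx⟩ := card_pos.mp (Nat.pos_of_ne_zero h)
    exact ⟨x, (mem_filter.mp hx).2⟩

lemma congruence_iff {k d : ℕ} :
    Pool.Agent.V5helper50.RS.CongruenceOrder k d ↔ Pool.Agent.V5helper16.CT.CongruenceOrder k d := by
  constructor
  · rintro ⟨c, C, hc, hcC, h⟩
    exact ⟨c, C, hc, hcC, fun q hq n hn => h q hq n ((exists_iff hq n).mpr hn)⟩
  · rintro ⟨c, C, hc, hcC, h⟩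
    exact ⟨c, C, hc, hcC, fun q hq n hn => h q hq n ((exists_iff hq n).mp hn)⟩

lemma congruence_threshold {k d : ℕ} (hk : 3 ≤ k) (hd : 1 ≤ d) :
    Pool.Agent.V5helper50.RS.CongruenceOrder k d ↔ D k ≤ d := by
  rw [congruence_iff, ← localBound_iff hk]
  exact ⟨local_of_order hk hd, order_of_local hk⟩

end threshold

/-- the theorem for one modulus at a time -/
lemma main {k d : ℕ} (hk : 3 ≤ k) (hd : k + 1 ≤ d) : Main k d :=
  main_of Pool.Agent.V5helper68.RS.t_LAW Pool.Agent.V5helper11.RS.t_CHU Pool.Agent.V5helper11.RS.t_CHL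
    Pool.Agent.V5helper4.RS.t_REC Pool.Agent.V5helper76.RS.t_MA Pool.Agent.V5helper4.RS.t_INT
    Pool.Agent.V5helper76.RS.t_RES Pool.Agent.V5helper6.RS.t_MB Pool.Agent.V5helper7.RS.t_MC
    Pool.Agent.V5helper57.RS.t_BND Pool.Agent.V5helper37.RS.t_UP Pool.Agent.V5helper6.RS.t_LOWM
    Pool.Agent.V5helper37.RS.t_LOW Pool.Agent.V5helper47.RS.t_CNV V5helper51.RS.t_NR
    Pool.Agent.V5helper31.RS.t_BC Pool.Agent.V5helper18.RS.t_ASM (by omega) hd

lemma toModel {k : ℕ} {Ω : Type} [MeasurableSpace Ω] {μ : Measure Ω} {θ : ℕ → Ω → ℕ}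
    (h : IsRandomShift k μ θ) : Model k μ θ :=
  ⟨h.prob, h.measurable, h.indep, h.bound, h.uniform⟩

lemma ofModel {k : ℕ} {Ω : Type} [MeasurableSpace Ω] {μ : Measure Ω} {θ : ℕ → Ω → ℕ}
    (h : Model k μ θ) : IsRandomShift k μ θ :=
  ⟨h.prob, h.meas, h.indep, h.bound, h.unif⟩

lemma nonempty_iff {k : ℕ} (hk : 1 ≤ k) (Q d : ℕ) (t : ℕ → ℕ) (u : ℕ) :
    (sphere k Q d t u).Nonempty ↔ N k Q t d u ≠ 0 := by
  rw [← Nat.pos_iff_ne_zero]
  exact (Set.ncard_pos (N_finite hk t d u)).symm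

lemma uniformOrder_iff {k d : ℕ} (hk : 1 ≤ k) :
    UniformOrder k d ↔ Pool.Agent.V5helper50.RS.UniformOrder k d := by
  constructor
  · rintro ⟨c, C, hc, hcC, h⟩
    refine ⟨c, C, hc, hcC, fun Q hQ Ω _ μ θ hθ => ?_⟩
    filter_upwards [h Ω μ θ (ofModel hθ)] with ω hω
    obtain ⟨u₀, hu⟩ := hω Q hQ
    exact ⟨u₀, fun u hu' hne => hu u hu' ((nonempty_iff hk Q d _ u).mpr hne)⟩
  · rintro ⟨c, C, hc, hcC, h⟩
    refine ⟨c, C, hc, hcC, fun Ω _ μ θ hθ => ?_⟩
    rw [ae_all_iff]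
    intro Q
    by_cases hQ : 1 ≤ Q
    · filter_upwards [h Q hQ Ω μ θ (toModel hθ)] with ω hω _
      obtain ⟨u₀, hu⟩ := hω
      exact ⟨u₀, fun u hu' hne => hu u hu' ((nonempty_iff hk Q d _ u).mp hne)⟩
    · exact Filter.Eventually.of_forall fun ω h => absurd h hQ

/-- **Theorem.** Let `k ≥ 3`. The random shifts exist. For `d ≥ k + 1` there are `0 < c ≤ C` such that almost
surely for every `Q ≥ 1` and all large `u` the number of the points of the perturbed sphere is between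
`c ρ u ^ (d/k - 1)` and `C ρ u ^ (d/k - 1)`, `ρ = density k Q d u`. The order of magnitude holds uniformly in `Q`
if and only if `D k ≤ d`. -/
theorem result (k : ℕ) (hk : 3 ≤ k) :
    (∃ (Ω : Type) (_ : MeasurableSpace Ω) (μ : Measure Ω) (θ : ℕ → Ω → ℕ), IsRandomShift k μ θ) ∧
    (∀ d : ℕ, k + 1 ≤ d → ∃ c C : ℝ, 0 < c ∧ c ≤ C ∧
      ∀ (Ω : Type) [MeasurableSpace Ω] (μ : Measure Ω) (θ : ℕ → Ω → ℕ), IsRandomShift k μ θ →
        ∀ᵐ ω ∂μ, ∀ Q : ℕ, 1 ≤ Q → ∃ u₀ : ℕ, ∀ u ≥ u₀,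
          c * density k Q d u * (u : ℝ) ^ ((d : ℝ) / k - 1) ≤
            (sphere k Q d (fun x => θ x ω) u).ncard ∧
          ((sphere k Q d (fun x => θ x ω) u).ncard : ℝ) ≤
            C * density k Q d u * (u : ℝ) ^ ((d : ℝ) / k - 1)) ∧
    (∀ d : ℕ, 1 ≤ d → (UniformOrder k d ↔ D k ≤ d)) := by
  refine ⟨?_, fun d hd => ?_, fun d hd => ?_⟩
  · obtain ⟨Ω, mΩ, μ, θ, hθ⟩ := Pool.Agent.V5helper47.RS.t_MOD k
    exact ⟨Ω, mΩ, μ, θ, ofModel hθ⟩
  · obtain ⟨c, C, hc, hcC, h⟩ := main hk hd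
    refine ⟨c, C, hc, hcC, fun Ω _ μ θ hθ => ?_⟩
    rw [ae_all_iff]
    intro Q
    by_cases hQ : 1 ≤ Q
    · filter_upwards [h Q hQ Ω μ θ (toModel hθ)] with ω hω _
      exact hω
    · exact Filter.Eventually.of_forall fun ω h => absurd h hQ
  · rw [uniformOrder_iff (by omega)]
    rcases Nat.lt_or_ge k d with h | h
    · rw [Pool.Agent.V5helper69.RS.t_THR Pool.Agent.V5helper47.RS.t_MOD k d (by omega) h
        (main hk h)]
      exact congruence_threshold hk hd
    · refine iff_of_false (fails_low Pool.Agent.V5helper47.RS.t_MOD hk hd h) ?_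
      have : k + 2 ≤ D k := le_max_left _ _
      omega

end Pool.Agent.Results.MP_927be3_nt.RandomSpheres
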