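import Mathlib
import Pool.Agent.V5helper16.CT.A9
import Pool.Agent.V5helper50.SP.Fin
import Pool.Agent.V5helper11.SP.UPB
import Pool.Agent.V5helper26.SP.LOB
import Pool.Agent.V5helper29.MT.INT
import Pool.Agent.V5helper31.SP.BG
import Pool.Agent.V5helper36.SP.UPC
import Pool.Agent.V5helper37.MT.SQ
import Pool.Agent.V5helper40.SP.MTL
import Pool.Agent.V5helper44.SP.HOL
import Pool.Agent.V5helper58.SP.IT
import Pool.Agent.V5helper59.MT.CM
import Pool.Agent.V5helper59.MT.KER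
import Pool.Agent.V5helper60.SP.SPH
import Pool.Agent.V5helper61.SP.AE
import Pool.Agent.V5helper65.SP.EXT
import Pool.Agent.V5helper7.SP.GRW
import Pool.Agent.V5helper70.MT.GEN
import Pool.Agent.V5helper72.MT.PR
import Pool.Agent.V5helper72.SP.CNT
import Pool.Agent.V5helper80.SP.WC
import Pool.Agent.V5helper81.SP.CMU
import Pool.Agent.V5helper82.SP.MV
import Pool.Agent.V5helper86.MT.SUP
import Pool.Agent.V5helper96.SP.MTU

/-!
# MP_927be3_nt: `k`-spheres for almost all smooth perturbations of the `k`-th powers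

Let `k ≥ 3`. For `α ∈ ℝ ^ (k-1)` and `Q ≥ 1` the `k`-th powers `x ^ k` are replaced by the numbers
`x ^ k + Q ⌊α_1 x + … + α_(k-1) x ^ (k-1)⌋`. So the powers are perturbed by the integral part of a smooth function of
lower order, and all residues modulo `Q` are kept. The perturbed `k`-sphere `sphere k Q d α u` is the set of the points
`m ∈ ℤ ^ d` with `∑ (|m_i| ^ k + Q ⌊α_1 |m_i| + … ⌋) = u`.

THEOREM. Let `d ≥ 2 k + 1`. There are `0 < c ≤ C` such that for almost all `α` for every `Q ≥ 1` and all large `u` the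
number of the points of the perturbed sphere is between `c ρ u ^ (d/k - 1)` and `C ρ u ^ (d/k - 1)`, where `ρ` is the
density of the solutions of the congruence `x_1 ^ k + … + x_d ^ k = u` modulo `Q`. So the order of magnitude holds
uniformly in `Q` if and only if `d ≥ D(k)`. Here `D(k)` is the threshold of the result `CongruenceThreshold`:
`D(k) = 4 k` if `k ≥ 4` is a power of two, and `D(k) ≤ 2 k + 1` otherwise.

For the unperturbed spheres the known bound is `d ≥ 2 k ^ 2 + 2 k - 3`.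
-/

set_option autoImplicit false

open Finset MeasureTheory

namespace Pool.Agent.Results.MP_927be3_nt.SmoothPerturbations

/-- the perturbed `k`-th power `x ^ k + Q ⌊α_0 x + α_1 x ^ 2 + … + α_(k-2) x ^ (k-1)⌋` -/
noncomputable def power (k Q : ℕ) (α : Fin (k - 1) → ℝ) (x : ℕ) : ℤ :=
  (x : ℤ) ^ k + Q * ⌊∑ j, α j * (x : ℝ) ^ ((j : ℕ) + 1)⌋

/-- the perturbed `k`-sphere: the points `m ∈ ℤ ^ d` with `∑ power k Q α |m_i| = u` -/
def sphere (k Q d : ℕ) (α : Fin (k - 1) → ℝ) (u : ℕ) : Set (Fin d → ℤ) :=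
  {m | ∑ i, power k Q α (m i).natAbs = u}

/-- the density of the solutions of `x_1 ^ k + … + x_d ^ k = u` modulo `Q` -/
noncomputable def density (k Q d u : ℕ) : ℝ :=
  (Nat.card {x : Fin d → ZMod Q // ∑ i, x i ^ k = (u : ZMod Q)} : ℝ) / (Q : ℝ) ^ (d - 1)

/-- the order of magnitude `u ^ (d/k - 1)` in dimension `d`, uniformly in `Q`: there are `0 < c ≤ C` such that
for almost all `α` (Lebesgue measure) for every `Q ≥ 1` the perturbed spheres with `u ≥ u₀` (`u₀` depends on `Q` and on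
`α`), if they are not empty, have between `c u ^ (d/k - 1)` and `C u ^ (d/k - 1)` points -/
def UniformOrder (k d : ℕ) : Prop :=
  ∃ c C : ℝ, 0 < c ∧ c ≤ C ∧ ∀ᵐ α : Fin (k - 1) → ℝ, ∀ Q : ℕ, 1 ≤ Q → ∃ u₀ : ℕ, ∀ u ≥ u₀,
    (sphere k Q d α u).Nonempty →
    c * (u : ℝ) ^ ((d : ℝ) / k - 1) ≤ (sphere k Q d α u).ncard ∧
    ((sphere k Q d α u).ncard : ℝ) ≤ C * (u : ℝ) ^ ((d : ℝ) / k - 1)

/-- `D k`: the maximum of `k + 2` and of `p ^ (v_p(k) + 1)` over the primes `p` with `p - 1 ∣ k`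
(`p ≤ k + 1`), with `2 ^ (v_2(k) + 2)` instead for `p = 2` and even `k`. -/
def D (k : ℕ) : ℕ :=
  max (k + 2) (((range (k + 2)).filter (fun p => p.Prime ∧ (p - 1) ∣ k)).sup
    (fun p => if p = 2 ∧ 2 ∣ k then 2 ^ (padicValNat 2 k + 2) else p ^ (padicValNat p k + 1)))

section threshold

open Pool.Agent.V5helper16.CT

lemma localBound_iff {k d : ℕ} (hk : 3 ≤ k) : LocalBound k d ↔ D k ≤ d := by
  unfold D LocalBound
  rw [max_le_iff, Finset.sup_le_iff]
  constructor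
  · rintro ⟨h1, h2, h3⟩
    refine ⟨h1, fun p hp => ?_⟩
    rw [mem_filter] at hp
    obtain ⟨_, hp, hpk⟩ := hp
    split_ifs with h
    · exact h2 h.2
    · by_cases hp2 : p = 2
      · subst hp2
        have h4 : ¬ 2 ∣ k := fun h5 => h ⟨rfl, h5⟩
        rw [padicValNat.eq_zero_of_not_dvd h4]
        omega
      · exact h3 p hp hp2 hpk
  · rintro ⟨h1, h2⟩
    refine ⟨h1, fun h => ?_, fun p hp hp2 hpk => ?_⟩
    · have := h2 2 (by
        rw [mem_filter, mem_range]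
        exact ⟨by omega, Nat.prime_two, by simp⟩)
      rwa [if_pos ⟨rfl, h⟩] at this
    · have := h2 p (by
        rw [mem_filter, mem_range]
        have := Nat.le_of_dvd (by omega) hpk
        exact ⟨by omega, hp, hpk⟩)
      rwa [if_neg (fun h => hp2 h.1)] at this

lemma exists_iff {q k d : ℕ} (hq : 1 ≤ q) (n : ZMod q) :
    (∃ x : Fin d → ZMod q, ∑ i, x i ^ k = n) ↔ Pool.Agent.V5helper16.CT.N q k d n ≠ 0 := by
  classical
  have : NeZero q := ⟨by omega⟩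
  rw [N_eq]
  constructor
  · rintro ⟨x, hx⟩
    exact (card_pos.mpr ⟨x, mem_filter.mpr ⟨mem_univ _, hx⟩⟩).ne'
  · intro h
    obtain ⟨x, hx⟩ := card_pos.mp (Nat.pos_of_ne_zero h)
    exact ⟨x, (mem_filter.mp hx).2⟩

lemma congruence_iff {k d : ℕ} :
    Pool.Agent.V5helper50.RS.CongruenceOrder k d ↔ Pool.Agent.V5helper16.CT.CongruenceOrder k d := by
  constructor
  · rintro ⟨c, C, hc, hcC, h⟩
    exact ⟨c, C, hc, hcC, fun q hq n hn => h q hq n ((exists_iff hq n).mpr hn)⟩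
  · rintro ⟨c, C, hc, hcC, h⟩
    exact ⟨c, C, hc, hcC, fun q hq n hn => h q hq n ((exists_iff hq n).mp hn)⟩

lemma congruence_threshold {k d : ℕ} (hk : 3 ≤ k) (hd : 1 ≤ d) :
    Pool.Agent.V5helper50.RS.CongruenceOrder k d ↔ D k ≤ d := by
  rw [congruence_iff, ← localBound_iff hk]
  exact ⟨local_of_order hk hd, order_of_local hk⟩

/-- `p ^ v_p(k) (p - 1)` divides `k` -/
lemma pow_mul_dvd {k p : ℕ} (hk : 3 ≤ k) (hp : p.Prime) (h : p - 1 ∣ k) :
    p ^ padicValNat p k * (p - 1) ∣ k := by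
  have hp1 : 1 < p := hp.one_lt
  refine Nat.Coprime.mul_dvd_of_dvd_of_dvd ?_ pow_padicValNat_dvd h
  refine Nat.Coprime.pow_left _ ?_
  rw [Nat.Prime.coprime_iff_not_dvd hp]
  intro h2
  have := Nat.le_of_dvd (by omega) h2
  omega

/-- the odd primes contribute at most `3 k / 2` -/
lemma odd_le {k p : ℕ} (hk : 3 ≤ k) (hp : p.Prime) (hp2 : p ≠ 2) (h : p - 1 ∣ k) :
    2 * p ^ (padicValNat p k + 1) ≤ 3 * k := by
  have h1 := Nat.le_of_dvd (by omega) (pow_mul_dvd hk hp h)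
  have h2 := hp.two_le
  have h3 : 3 ≤ p := by omega
  have h4 : 2 * p ≤ 3 * (p - 1) := by omega
  calc 2 * p ^ (padicValNat p k + 1) = p ^ padicValNat p k * (2 * p) := by rw [pow_succ]; ring
    _ ≤ p ^ padicValNat p k * (3 * (p - 1)) := Nat.mul_le_mul_left _ h4
    _ = 3 * (p ^ padicValNat p k * (p - 1)) := by ring
    _ ≤ 3 * k := Nat.mul_le_mul_left _ h1

lemma D_pow_two (m : ℕ) (hm : 2 ≤ m) : D (2 ^ m) = 4 * 2 ^ m := by
  have h4 : 4 ≤ 2 ^ m := by
    calc 4 = 2 ^ 2 := by norm_num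
      _ ≤ 2 ^ m := Nat.pow_le_pow_right (by norm_num) hm
  have hv : padicValNat 2 (2 ^ m) = m := by
    haveI : Fact (Nat.Prime 2) := ⟨Nat.prime_two⟩
    exact padicValNat.prime_pow m
  have h2 : 2 ∣ 2 ^ m := dvd_pow_self 2 (by omega)
  unfold D
  apply le_antisymm
  · rw [max_le_iff, Finset.sup_le_iff]
    refine ⟨by omega, fun p hp => ?_⟩
    rw [mem_filter] at hp
    obtain ⟨_, hp, hpk⟩ := hp
    by_cases hp2 : p = 2
    · rw [if_pos ⟨hp2, h2⟩, hv, pow_add]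
      omega
    · rw [if_neg (fun h => hp2 h.1)]
      have := odd_le (by omega) hp hp2 hpk
      omega
  · refine le_trans ?_ (le_max_right _ _)
    have : (2 : ℕ) ∈ (range (2 ^ m + 2)).filter (fun p => p.Prime ∧ (p - 1) ∣ 2 ^ m) := by
      rw [mem_filter, mem_range]
      exact ⟨by omega, Nat.prime_two, by simp⟩
    refine le_trans ?_ (Finset.le_sup this)
    rw [if_pos ⟨rfl, h2⟩, hv, pow_add]
    omega

lemma D_le (k : ℕ) (hk : 3 ≤ k) (h : ∀ m : ℕ, k ≠ 2 ^ m) : D k ≤ 2 * k + 1 := by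
  unfold D
  rw [max_le_iff, Finset.sup_le_iff]
  refine ⟨by omega, fun p hp => ?_⟩
  rw [mem_filter] at hp
  obtain ⟨_, hp, hpk⟩ := hp
  by_cases hp2 : p = 2
  · subst hp2
    by_cases h2 : 2 ∣ k
    · rw [if_pos ⟨rfl, h2⟩]
      obtain ⟨j, hj⟩ := (pow_padicValNat_dvd : 2 ^ padicValNat 2 k ∣ k)
      have hj0 : j ≠ 0 := by
        rintro rfl
        omega
      have hj1 : j ≠ 1 := by
        rintro rfl
        exact h (padicValNat 2 k) (by rw [mul_one] at hj; exact hj)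
      have hj2 : ¬ 2 ∣ j := by
        rintro ⟨i, rfl⟩
        have h5 : 2 ^ (padicValNat 2 k + 1) ∣ k := ⟨i, by rw [pow_succ]; nth_rewrite 1 [hj]; ring⟩
        haveI : Fact (Nat.Prime 2) := ⟨Nat.prime_two⟩
        exact pow_succ_padicValNat_not_dvd (by omega) h5
      have hj3 : 3 ≤ j := by omega
      have h6 : 2 ^ padicValNat 2 k * 3 ≤ k := by
        calc 2 ^ padicValNat 2 k * 3 ≤ 2 ^ padicValNat 2 k * j := Nat.mul_le_mul_left _ hj3
          _ = k := hj.symm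
      rw [pow_add]
      omega
    · rw [if_neg (fun h3 => h2 h3.2), padicValNat.eq_zero_of_not_dvd h2]
      omega
  · rw [if_neg (fun h3 => hp2 h3.1)]
    have := odd_le hk hp hp2 hpk
    omega

end threshold

lemma tBG : Pool.Agent.V5helper50.SP.S_BG := Pool.Agent.V5helper31.SP.t_BG 
lemma tHOL : Pool.Agent.V5helper50.SP.S_HOL := Pool.Agent.V5helper44.SP.t_HOL 
lemma tWC : Pool.Agent.V5helper50.SP.S_WC := Pool.Agent.V5helper80.SP.t_WC 
lemma tCNT : Pool.Agent.V5helper50.SP.S_CNT := Pool.Agent.V5helper72.SP.t_CNT tWC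
lemma tMV : Pool.Agent.V5helper50.SP.S_MV := Pool.Agent.V5helper82.SP.t_MV tCNT Pool.Agent.V5helper72.MT.t_PR
lemma tIT : Pool.Agent.V5helper50.SP.S_IT := Pool.Agent.V5helper58.SP.t_IT tBG tMV
lemma tAE : Pool.Agent.V5helper50.SP.S_AE := Pool.Agent.V5helper61.SP.t_AE tIT tHOL
lemma tCMU : Pool.Agent.V5helper50.SP.S_CMU := Pool.Agent.V5helper81.SP.CMU.t_CMU Pool.Agent.V5helper59.MT.KER.t_KER
lemma tMTU : Pool.Agent.V5helper50.SP.S_MTU := Pool.Agent.V5helper96.SP.t_MTU 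
lemma tMTL : Pool.Agent.V5helper50.SP.S_MTL := Pool.Agent.V5helper40.SP.t_MTL 
lemma tGRW : Pool.Agent.V5helper50.SP.S_GRW := Pool.Agent.V5helper7.SP.t_GRW 
lemma tUPC : Pool.Agent.V5helper50.SP.S_UPC := Pool.Agent.V5helper36.SP.t_UPC tCMU tMTU
lemma tUPB : Pool.Agent.V5helper50.SP.S_UPB := Pool.Agent.V5helper11.SP.t_UPB tUPC tGRW
lemma tLOB : Pool.Agent.V5helper50.SP.S_LOB := Pool.Agent.V5helper26.SP.t_LOB (Pool.Agent.V5helper59.MT.CM.t_CM Pool.Agent.V5helper59.MT.KER.t_KER) tMTL tGRW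
lemma tEXT : Pool.Agent.V5helper50.SP.S_EXT := Pool.Agent.V5helper65.SP.EXT.t_EXT tGRW
lemma tSPH : Pool.Agent.V5helper50.SP.S_SPH := Pool.Agent.V5helper60.SP.t_SPH tGRW
lemma tSUP : Pool.Agent.V5helper51.MT.S_SUP := Pool.Agent.V5helper86.MT.t_SUP
  (Pool.Agent.V5helper70.MT.t_GEN Pool.Agent.V5helper37.MT.t_SQ) Pool.Agent.V5helper29.MT.t_INT

/-- the theorem for spheres -/
lemma main {k d : ℕ} (hk : 3 ≤ k) (hd : 2 * k + 1 ≤ d) :
    ∃ c C : ℝ, 0 < c ∧ c ≤ C ∧ ∀ᵐ α : Fin (k - 1) → ℝ, ∀ Q : ℕ, 1 ≤ Q → ∃ u₀ : ℕ, ∀ u : ℕ, u₀ ≤ u →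
      c * Pool.Agent.V5helper50.SP.dens k Q d u * (u : ℝ) ^ ((d : ℝ) / k - 1) ≤
        (Pool.Agent.V5helper50.SP.sphere k Q d α u).ncard ∧
      ((Pool.Agent.V5helper50.SP.sphere k Q d α u).ncard : ℝ) ≤
        C * Pool.Agent.V5helper50.SP.dens k Q d u * (u : ℝ) ^ ((d : ℝ) / k - 1) :=
  Pool.Agent.V5helper50.SP.spheres_of tUPB tLOB tEXT tAE tSUP tSPH k (by omega) d hd

/-- **Theorem.** Let `k ≥ 3` and `d ≥ 2 k + 1`. There are `0 < c ≤ C` such that for almost all `α ∈ ℝ ^ (k-1)` for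
every `Q ≥ 1` and all large `u` the number of the points of the perturbed sphere is between
`c ρ u ^ (d/k - 1)` and `C ρ u ^ (d/k - 1)`, `ρ = density k Q d u`. The order of magnitude holds uniformly in `Q`
if and only if `D k ≤ d`. Moreover `D k = 4 k` if `k` is a power of two, and `D k ≤ 2 k + 1` otherwise. -/
theorem result (k : ℕ) (hk : 3 ≤ k) :
    (∀ d : ℕ, 2 * k + 1 ≤ d →
      (∃ c C : ℝ, 0 < c ∧ c ≤ C ∧ ∀ᵐ α : Fin (k - 1) → ℝ, ∀ Q : ℕ, 1 ≤ Q → ∃ u₀ : ℕ, ∀ u ≥ u₀,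
        c * density k Q d u * (u : ℝ) ^ ((d : ℝ) / k - 1) ≤ (sphere k Q d α u).ncard ∧
        ((sphere k Q d α u).ncard : ℝ) ≤ C * density k Q d u * (u : ℝ) ^ ((d : ℝ) / k - 1)) ∧
      (UniformOrder k d ↔ D k ≤ d)) ∧
    (∀ m : ℕ, k = 2 ^ m → D k = 4 * k) ∧
    ((∀ m : ℕ, k ≠ 2 ^ m) → D k ≤ 2 * k + 1) := by
  refine ⟨fun d hd => ⟨main hk hd, ?_⟩, fun m hm => ?_, D_le k hk⟩
  · rw [← congruence_threshold hk (by omega)]
    exact Pool.Agent.V5helper50.SP.thr_of (main hk hd)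
  · have h2 : 2 ≤ m := by
      by_contra h
      interval_cases m <;> omega
    rw [hm]
    exact D_pow_two m h2

end Pool.Agent.Results.MP_927be3_nt.SmoothPerturbations
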